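import Pool.Agent.helper94.PL.Spec

set_option autoImplicit false

open Complex Metric Set Filter Topology MeasureTheory MPS
open Pool.Agent.helper16.Multibrot

noncomputable section

namespace PLY

theorem BNZ_deriv_fc (n : ℕ) (c w : ℂ) : HasDerivAt (fc n c) (n * w ^ (n - 1)) w := by
  have h := (hasDerivAt_pow n w).add_const c
  exact h

theorem BNZ_diff_iter (n : ℕ) (c : ℂ) (m : ℕ) (z : ℂ) : DifferentiableAt ℂ ((fc n c)^[m]) z := by
  induction m generalizing z with
  | zero => exact differentiableAt_id
  | succ m ih =>
    rw [Function.iterate_succ]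
    exact (ih _).comp z (BNZ_deriv_fc n c z).differentiableAt

theorem BNZ (hBIT : BIT_stmt) (hMBD : MBD_stmt) : BNZ_stmt := by
  intro n c E hn hc hE
  obtain ⟨hc2, horb, -⟩ := hMBD n c hn hc
  have hchi0 : ∀ w : ℂ, 1 < ‖w‖ → chi E w ≠ 0 := by
    intro w hw h0
    have ht := (hBIT n c E hn hE w hw).2
    rw [h0] at ht
    have := (ht.eventually_gt_atTop 4).exists
    obtain ⟨j, hj⟩ := this
    linarith [horb j]
  refine ⟨?_, ?_⟩
  · intro v hv h0
    by_cases hv0 : v = 0
    · subst hv0
      have := hE.one
      rw [this] at h0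
      exact one_ne_zero h0
    · have hv1 : 1 < ‖v⁻¹‖ := by
        rw [norm_inv]
        have hvp : 0 < ‖v‖ := norm_pos_iff.mpr hv0
        rw [mem_ball_zero_iff] at hv
        exact (one_lt_inv₀ hvp).mpr hv
      apply hchi0 v⁻¹ hv1
      unfold chi
      rw [inv_inv, h0, mul_zero]
  · intro w hw
    refine ⟨hchi0 w hw, ?_, ?_⟩
    · intro k z hk hz h
      have ht := (hBIT n c E hn hE w hw).2
      rw [h] at ht
      have hsub : Tendsto (fun j : ℕ => j * k) atTop atTop :=
        tendsto_id.atTop_mul_const' hk
      have ht2 := ht.comp hsub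
      have hconst : (fun j : ℕ => ‖(fc n c)^[j * k] z‖) = fun _ => ‖z‖ := by
        funext j
        congr 1
        rw [mul_comm, Function.iterate_mul]
        exact Function.iterate_fixed hz j
      have : Tendsto (fun _ : ℕ => ‖z‖) atTop atTop := by
        rw [← hconst]; exact ht2
      exact not_tendsto_const_atTop _ _ this
    · intro m
      induction m with
      | zero => simp
      | succ m ih =>
        rw [Function.iterate_succ']
        rw [deriv_comp _ (BNZ_deriv_fc n c _).differentiableAt (BNZ_diff_iter n c m _)]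
        apply mul_ne_zero _ ih
        rw [(BNZ_deriv_fc n c _).deriv]
        apply mul_ne_zero
        · exact_mod_cast (by omega : n ≠ 0)
        · apply pow_ne_zero
          rw [(hBIT n c E hn hE w hw).1 m]
          apply hchi0
          rw [norm_pow]
          exact one_lt_pow₀ hw (pow_pos (by omega) m).ne'

end PLY
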