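import Pool.Agent.helper4.PL.SpecD

/-! DSU: the product of the obstacle functions at the centre (THEOREM P1, block D) -/

set_option autoImplicit false

open Complex Metric Set Filter Topology MeasureTheory
open Pool.Agent.helper98.ILF
open WP (it)
open HY (UD T S hd UN RM)
open PM

noncomputable section

namespace PL

lemma DSU_log {v c : ℝ} (hc : 0 < c) (hv : c ≤ v) (hv1 : v ≤ 1) : Real.exp (-((1 - v) / c)) ≤ v := by
  have hv0 : 0 < v := lt_of_lt_of_le hc hv
  have h1 : 1 - v⁻¹ ≤ Real.log v := Real.one_sub_inv_le_log_of_pos hv0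
  have h2 : -((1 - v) / c) ≤ 1 - v⁻¹ := by
    have h3 : 1 - v⁻¹ = -((1 - v) / v) := by
      field_simp
      ring
    rw [h3]
    apply neg_le_neg
    exact div_le_div_of_nonneg_left (by linarith) hc hv
  calc Real.exp (-((1 - v) / c)) ≤ Real.exp (Real.log v) := Real.exp_le_exp.2 (h2.trans h1)
    _ = v := Real.exp_log hv0

theorem DSU (hPSL : PSL_stmt) (hVNC : VNC_stmt) (hMBT : MBT_stmt) (hGBL : GBL_stmt) (hLPV : LPV_stmt) : DSU_stmt := by
  classical
  intro f R δ e₀ d₀ k₀ hST μ x hTP a b₀ B ha hb₀ hB hB1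
  obtain ⟨C, θ, c', E, k₁, hC, hθ, hθ1, hc', hP⟩ := hPSL f R δ e₀ d₀ k₀ hST μ x hTP a b₀ ha hb₀
  obtain ⟨k₂, hN⟩ := hVNC f R δ e₀ d₀ k₀ hST B hB1
  obtain ⟨C3, hC3, hG⟩ := hGBL (C * (1 / (1 - B)) ^ E) θ
    (mul_nonneg hC.le (pow_nonneg (by apply div_nonneg zero_le_one; linarith) _)) hθ hθ1
  refine ⟨C3 / c', max k₁ k₂, by positivity, ?_⟩
  intro k hk t hLO p hp hpV hpd hhd
  obtain ⟨hc, hcnt⟩ := hP k ((le_max_left _ _).trans hk) t hLO p hp hpV hpd hhd
  have hk2 : k₂ ≤ k := (le_max_right _ _).trans hk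
  have hER : ER f R := ⟨hST.R1, hST.esc⟩
  have hq : it f t x ∈ JJ f := ((hLPV f R δ e₀ d₀ k₀ hST k x hTP.mem).1 t).1
  have hM := hMBT f R hST.deg hER k t p (hST.Jv _ hp _)
  have h0 : (0 : ℂ) ∈ UD := by show (0 : ℂ) ∈ ball (0 : ℂ) 1; simp
  set q := it f t x with hqdef
  have hRL : ∀ y ∈ RL f R k t q B, y.1 < t ∧ y.2 ∈ CP f ∧ pd (VC f R k q) q (it f (t - y.1) y.2) < B := by
    intro y hy
    unfold RL at hy
    rw [Finset.mem_filter, Finset.mem_product, Finset.mem_range] at hy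
    exact ⟨hy.1.1, hy.1.2, hy.2⟩
  have hbt : ∀ y ∈ RL f R k t q B, ‖bt f R k t p y 0‖ ≤ 1 ∧ gg f R k t p y = 1 - ‖bt f R k t p y 0‖ ∧
      c' ≤ ‖bt f R k t p y 0‖ := by
    intro y hy
    obtain ⟨h1, h2, -⟩ := hRL y hy
    obtain ⟨-, h4, h5⟩ := hM y h1.le
    refine ⟨(h4 0 h0).2.1, h5, ?_⟩
    have h6 := hc y.1 h1 y.2 h2
    have h7 : gg f R k t p y = 1 - pd (VC f R (k + t - y.1) (it f y.1 p)) (it f y.1 p) y.2 := rfl
    linarith
  have hsum : ∑ y ∈ RL f R k t q B, gg f R k t p y ≤ C3 := by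
    have h1 := hG (ℕ × ℂ) (RL f R k t q B) (fun y => gg f R k t p y) (fun y hy => by
      obtain ⟨h2, h3, h4⟩ := hbt y hy
      show 0 ≤ gg f R k t p y ∧ gg f R k t p y ≤ 1
      rw [h3]
      exact ⟨by linarith, by linarith [norm_nonneg (bt f R k t p y 0)]⟩) (fun u hu hu1 => by
      have h2 := hcnt q u (1 - B) hu hu1 (by linarith) (by linarith)
      have h3 : (((RL f R k t q B).filter (fun y => u ≤ gg f R k t p y)).card : ℝ) ≤
          (((RL f R k t q 1).filter (fun y => y.2 ∈ JJ f ∧ u ≤ gg f R k t p y ∧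
            1 - B ≤ 1 - pd (VC f R k q) q (it f (t - y.1) y.2))).card : ℝ) := by
        apply Nat.cast_le.2
        apply Finset.card_le_card
        intro y hy
        rw [Finset.mem_filter] at hy ⊢
        obtain ⟨h4, h5, h6⟩ := hRL y hy.1
        refine ⟨?_, ?_, hy.2, by linarith⟩
        · unfold RL
          rw [Finset.mem_filter, Finset.mem_product, Finset.mem_range]
          exact ⟨⟨h4, h5⟩, by linarith⟩
        · by_contra hno
          have := hN k hk2 q hq y.2 h5 hno (t - y.1)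
          linarith
      calc _ ≤ _ := h3
        _ ≤ C * u ^ (-θ) * (1 / (1 - B)) ^ E := h2
        _ = C * (1 / (1 - B)) ^ E * u ^ (-θ) := by ring) 1 one_pos le_rfl
    rw [Real.one_rpow, mul_one, Finset.filter_true_of_mem] at h1
    · exact h1
    · intro y hy
      obtain ⟨h2, h3, h4⟩ := hbt y hy
      show gg f R k t p y ≤ 1
      rw [h3]
      linarith [norm_nonneg (bt f R k t p y 0)]
  calc Real.exp (-(C3 / c')) ≤ Real.exp (∑ y ∈ RL f R k t q B, -(gg f R k t p y / c')) := by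
        apply Real.exp_le_exp.2
        rw [Finset.sum_neg_distrib, ← Finset.sum_div]
        apply neg_le_neg
        exact div_le_div_of_nonneg_right hsum hc'.le
    _ = ∏ y ∈ RL f R k t q B, Real.exp (-(gg f R k t p y / c')) := Real.exp_sum _ _
    _ ≤ ∏ y ∈ RL f R k t q B, ‖bt f R k t p y 0‖ := by
        apply Finset.prod_le_prod
        · intro y _
          exact (Real.exp_pos _).le
        · intro y hy
          obtain ⟨h2, h3, h4⟩ := hbt y hy
          rw [h3]
          exact DSU_log hc' h4 h2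

end PL
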