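import Pool.Agent.helper68.PL.SpecB

/-! SEP: separation of critical points, assembly of SPA and SPC (THEOREM P1, block B) -/

set_option autoImplicit false

open Complex Metric Set Filter Topology MeasureTheory
open Pool.Agent.helper98.ILF
open WP (it)
open HY (UD T S hd UN RM)
open PM

noncomputable section

namespace PL

theorem SEP (hSPA : SPA_stmt) (hSPC : SPC_stmt) : SEP_stmt := by
  intro f R δ e₀ d₀ k₀ hST μ x hTP a ha
  obtain ⟨δL, hδ, hδ1, HL, h1⟩ := hSPA f R δ e₀ d₀ k₀ hST μ x hTP a ha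
  obtain ⟨cL, hc, hc1, HL', h2⟩ := hSPC f R δ e₀ d₀ k₀ hST μ x hTP a ha
  refine ⟨δL, cL, hδ, hδ1, hc, hc1, max HL HL', ?_⟩
  intro n s hns hLO p hp hpd
  obtain ⟨h3, h4⟩ := h1 n s ((le_max_left _ _).trans hns) hLO p hp hpd
  refine ⟨h3, h4, ?_⟩
  intro ρ hρ hρδ hq
  exact h2 n s ((le_max_right _ _).trans hns) hLO p hp hpd ρ hρ (hρδ.trans hδ1) hq

end PL
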